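import Mathlib
import Pool.Agent.R443.QFib4

/-!
MP_5b3c88_nt, Q1: for all positive integers `a` and `m` the Laurent polynomial `S_{a,m}(q)` is
divisible by the square of the q-bracket of `5^a`.
-/

namespace Pool.Agent.Results.MP_5b3c88_nt.FiveAdic

open Polynomial Finset

/-- Gaussian binomials `[n choose k]` in `ℤ[X]`, `q = X`, by the q-Pascal recursion. -/
noncomputable def gauss : ℕ → ℕ → ℤ[X]
  | _, 0 => 1
  | 0, _ + 1 => 0
  | n + 1, k + 1 => gauss n k + X ^ (k + 1) * gauss n (k + 1)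

/-- Schur's q-Fibonacci polynomials. -/
noncomputable def Fb : ℕ → ℤ[X]
  | 0 => 0
  | 1 => 1
  | n + 2 => Fb (n + 1) + X ^ (n + 1) * Fb n

/-- The Laurent polynomial `S_{a,m}(q)`. -/
noncomputable def S (a m : ℕ) : LaurentPolynomial ℤ :=
  ∑ k ∈ range (5 ^ a * m),
    LaurentPolynomial.T (-(2 * (k : ℤ) * (k + 1))) * toLaurent (gauss (2 * k) k * Fb (2 * k + 1))

lemma gauss_eq : ∀ n k : ℕ, gauss n k = Pool.Agent.R443.QDel.gauss (X : ℤ[X]) n k
  | _, 0 => by
    rw [Pool.Agent.R443.QDel.gauss_zero_right]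
    simp [gauss]
  | 0, k + 1 => by simp [gauss, Pool.Agent.R443.QDel.gauss]
  | n + 1, k + 1 => by
    rw [Pool.Agent.R443.QDel.gauss_succ_succ, gauss, gauss_eq n k, gauss_eq n (k + 1)]

/-- The product formula of the problem: `[n choose k]` times the product of the brackets
`[i]`, `0 < i ≤ k`, is the product of the brackets `[i]`, `n - k < i ≤ n`. -/
theorem gauss_prod (n k : ℕ) (h : k ≤ n) :
    gauss n k * ∏ i ∈ range k, (∑ j ∈ range (i + 1), (X : ℤ[X]) ^ j)
      = ∏ i ∈ range k, (∑ j ∈ range (n - i), (X : ℤ[X]) ^ j) := by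
  have h1 := Pool.Agent.R443.QDel.gauss_prod (X : ℤ[X]) k n h
  have hg : ∀ m : ℕ, (1 - X ^ m : ℤ[X]) = (1 - X) * ∑ j ∈ range m, X ^ j := by
    intro m
    rw [mul_neg_geom_sum]
  have hne : (1 - X : ℤ[X]) ≠ 0 := by
    intro h0
    have h2 := congrArg (fun f => coeff f 0) h0
    simp at h2
  rw [prod_congr rfl (fun i _ => hg (i + 1)), prod_congr rfl (fun i _ => hg (n - i)),
    prod_mul_distrib, prod_mul_distrib, prod_const, card_range, ← gauss_eq] at h1
  apply mul_left_cancel₀ (pow_ne_zero k hne)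
  linear_combination h1

lemma Fb_eq : ∀ n : ℕ, Fb n = Pool.Agent.R443.QFib.Fb (X : ℤ[X]) n
  | 0 => by simp [Fb, Pool.Agent.R443.QFib.Fb]
  | 1 => by simp [Fb, Pool.Agent.R443.QFib.Fb]
  | n + 2 => by rw [Fb, Pool.Agent.R443.QFib.Fb, Fb_eq n, Fb_eq (n + 1)]

lemma Fb_map {R S : Type*} [CommRing R] [CommRing S] (f : R →+* S) (q : R) :
    ∀ n : ℕ, f (Pool.Agent.R443.QFib.Fb q n) = Pool.Agent.R443.QFib.Fb (f q) n
  | 0 => by simp [Pool.Agent.R443.QFib.Fb]
  | 1 => by simp [Pool.Agent.R443.QFib.Fb]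
  | n + 2 => by
    rw [Pool.Agent.R443.QFib.Fb, Pool.Agent.R443.QFib.Fb, map_add, map_mul, map_pow,
      Fb_map f q n, Fb_map f q (n + 1)]

lemma S_eq (a m : ℕ) : S a m = Pool.Agent.R443.QFib.SF (5 ^ a * m) := by
  unfold S Pool.Agent.R443.QFib.SF
  apply sum_congr rfl
  intro k _
  rw [map_mul, gauss_eq, Fb_eq, Pool.Agent.R443.QDel.gauss_map, Fb_map, toLaurent_X]
  ring

/-- Q1, affirmative. The first part says that some power of `q` times `S_{a,m}(q)` is a polynomial,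
the second that every such polynomial is divisible in `ℤ[q]` by the square of `[5^a]`. -/
theorem result (a m : ℕ) (_ha : 1 ≤ a) (hm : 1 ≤ m) :
    (∃ (N : ℕ) (P : ℤ[X]), toLaurent P = LaurentPolynomial.T (N : ℤ) * S a m) ∧
    ∀ (N : ℕ) (P : ℤ[X]), toLaurent P = LaurentPolynomial.T (N : ℤ) * S a m →
      (∑ i ∈ range (5 ^ a), (X : ℤ[X]) ^ i) ^ 2 ∣ P := by
  constructor
  · obtain ⟨n, P, hP⟩ := LaurentPolynomial.exists_T_pow (S a m)
    exact ⟨n, P, by rw [hP]; ring⟩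
  · intro N P hP
    rw [S_eq] at hP
    exact Pool.Agent.R443.QFib.geom_sq_dvd a m hm N P hP

end Pool.Agent.Results.MP_5b3c88_nt.FiveAdic
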